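import Pool.Agent.Lib.MP_fae9ec_al.Abstract
import Pool.Agent.Lib.MP_fae9ec_al.Density

/-!
There is a (Hausdorff, second countable) topological group `G` with a closed subgroup `H` such that
`G/H` is a faithful irreducible coset space, an abelian minimal closed normal subgroup `M`, and a
nontrivial closed normal subgroup `N` with `M ⊓ N = ⊥`.

Inside `Γ = Perm ℤ` (pointwise convergence) let
* `H₁` be the odd permutations commuting with some nonzero translation,
* `M₁`, `N₁` the odd permutations with `w x = x ∨ w x = -x` of finite, respectively periodic support.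
Then `G = {(m h, n h)} ≤ Γ × Γ`, `H = {(h, h)}`, `M = {(m, 1)}`, `N = {(1, n)}`.
-/

set_option autoImplicit false

namespace Pool.Agent.Results.MP_fae9ec_al.PositiveAnswer

open Pool.Agent.Lib.MP_fae9ec_al

attribute [local instance] permTop permTop_group permTop_t2 permTop_second

/-- Positive answer to Q1: there are a topological group `G`, a closed subgroup `H` which is maximal
among the proper closed subgroups and satisfies `⋂ g, g H g⁻¹ = {1}`, an abelian subgroup `M` that is
minimal among the nontrivial closed normal subgroups, and a nontrivial closed normal subgroup `N`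
with `M ⊓ N = ⊥`.  Moreover `G` is Hausdorff and second countable. -/
theorem result :
    ∃ (G : Type) (_ : Group G) (_ : TopologicalSpace G) (_ : IsTopologicalGroup G)
      (H M N : Subgroup G),
      T2Space G ∧ SecondCountableTopology G ∧
      (IsClosed (H : Set G) ∧ H ≠ ⊤ ∧
        ∀ L : Subgroup G, IsClosed (L : Set G) → H < L → L = ⊤) ∧
      (⋂ g : G, {x : G | ∃ h ∈ H, x = g * h * g⁻¹}) = {1} ∧
      (IsClosed (M : Set G) ∧ M.Normal ∧ M ≠ ⊥ ∧
        (∀ L : Subgroup G, IsClosed (L : Set G) → L.Normal → L ≠ ⊥ → L ≤ M → L = M) ∧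
        ∀ x ∈ M, ∀ y ∈ M, x * y = y * x) ∧
      (IsClosed (N : Set G) ∧ N.Normal ∧ N ≠ ⊥ ∧ M ⊓ N = ⊥) := by
  have hsup : ∀ x ∈ M₁ ⊔ N₁, x ∈ W₀ := fun x hx => sup_le_W₀ hx
  have hM0 : M₁ ≠ ⊥ := by
    intro h
    have h1 : flip 1 ∈ M₁ := flip_mem_M₁ 1
    rw [h, Subgroup.mem_bot] at h1
    have h2 := congrArg (fun g : Equiv.Perm ℤ => g 1) h1
    simp only [flip_apply, Equiv.Perm.one_apply] at h2
    norm_num at h2
  have hN0 : N₁ ≠ ⊥ := by
    -- flip all integers that are not divisible by three
    intro h
    let w : Equiv.Perm ℤ :=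
      { toFun := fun x => if x % 3 = 0 then x else -x
        invFun := fun x => if x % 3 = 0 then x else -x
        left_inv := fun x => by
          dsimp only
          split_ifs <;> omega
        right_inv := fun x => by
          dsimp only
          split_ifs <;> omega }
    have hwa : ∀ x, w x = if x % 3 = 0 then x else -x := fun x => rfl
    have hw : w ∈ N₁ := by
      refine ⟨⟨fun x => ?_, fun x => ?_⟩, 3, by norm_num, fun x => ?_⟩
      · rw [hwa, hwa]; split_ifs <;> omega
      · rw [hwa]; split_ifs
        · exact Or.inl rfl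
        · exact Or.inr rfl
      · push_cast
        rw [hwa, hwa]; split_ifs <;> omega
    rw [h, Subgroup.mem_bot] at hw
    have h2 := congrArg (fun g : Equiv.Perm ℤ => g 1) hw
    simp only [hwa, Equiv.Perm.one_apply] at h2
    norm_num at h2
  have hf : ∀ h ∈ H₁, (∀ m ∈ M₁, h * m = m * h) → h = 1 := by
    intro h hh hcomm
    refine H₁_W₀ hh ⟨hh.1, fun x => ?_⟩
    have h1 := hcomm (flip x) (flip_mem_M₁ x)
    have h2 : h * flip x * h⁻¹ = flip x := by rw [h1]; group
    rw [conj_flip hh.1] at h2
    have h3 := congrArg (fun g : Equiv.Perm ℤ => g (h x)) h2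
    simp only [flip_apply] at h3
    rw [if_pos trivial] at h3
    by_cases e1 : h x = x
    · exact Or.inl e1
    · by_cases e2 : h x = -x
      · exact Or.inr e2
      · rw [if_neg e1, if_neg e2] at h3
        have h4 : h x = 0 := by omega
        have h5 : h 0 = 0 := by
          have := hh.1 0
          simp at this
          omega
        have h6 : x = 0 := h.injective (h4.trans h5.symm)
        exact absurd (h4.trans h6.symm) e1
  obtain ⟨H, M', N', h⟩ := abstract_example H₁ M₁ N₁ M₁_conj N₁_conj
    (fun x hx y hy => W₀_comm (hsup x hx) (hsup y hy)) M₁_inf_N₁ H₁_inf_sup hM0 hN0 hf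
    (fun w hw => W₀_subset_closure (hsup w hw))
    (fun D hD hD0 hDc w hw => W₀_subset_closure_of_invariant D hD hD0 hDc (hsup w hw))
  exact ⟨bigG H₁ M₁ N₁ M₁_conj N₁_conj, inferInstance, inferInstance, inferInstance, H, M', N',
    inferInstance, Topology.IsInducing.subtypeVal.secondCountableTopology, h⟩

end Pool.Agent.Results.MP_fae9ec_al.PositiveAnswer
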